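import Mathlib

set_option autoImplicit false

namespace Pool.Agent.Results.MP_39f9da_an.SpecialLinear

open Finset

universe u

/-- `X` is a subshift of finite type over `G` (window `S`, allowed patterns `P`). -/
def IsSFT {G : Type u} [Group G] {A : Type} (X : Set (G → A)) : Prop :=
  ∃ (S : Finset G) (P : Set (S → A)), X = {x | ∀ g : G, (fun s : S => x (s.1 * g)) ∈ P}

/-- `X` is strongly irreducible. -/
def StronglyIrreducible {G : Type u} [Group G] {A : Type} (X : Set (G → A)) : Prop :=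
  ∃ Δ : Finset G, ∀ Ω₁ Ω₂ : Finset G, (∀ d ∈ Δ, ∀ w ∈ Ω₁, d * w ∉ Ω₂) →
    ∀ x₁ ∈ X, ∀ x₂ ∈ X, ∃ z ∈ X, (∀ w ∈ Ω₁, z w = x₁ w) ∧ (∀ w ∈ Ω₂, z w = x₂ w)

/-- The configuration `x` has a finite orbit. -/
def Periodic {G : Type u} [Group G] {A : Type} (x : G → A) : Prop :=
  (Set.range (fun g : G => fun h : G => x (h * g))).Finite

/-- `G` is residually finite. -/
def ResiduallyFinite (G : Type u) [Group G] : Prop :=
  ∀ g : G, g ≠ 1 → ∃ H : Subgroup G, H.FiniteIndex ∧ g ∉ H

/-- Over `G` there is a nonempty strongly irreducible subshift of finite type with alphabet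
`ZMod p × ZMod p` and without any periodic configuration. -/
def HasAperiodic (G : Type u) [Group G] (p : ℕ) : Prop :=
  ∃ X : Set (G → ZMod p × ZMod p), IsSFT X ∧ StronglyIrreducible X ∧ X.Nonempty ∧
    ∀ y ∈ X, ¬ Periodic y

lemma anti (p : ℕ) (f : ℤ → ZMod p) : ∃ F : ℤ → ZMod p, F 0 = 0 ∧ ∀ n, F (n + 1) = F n + f n := by
  refine ⟨fun n => ∑ k ∈ Ico 0 n, f k - ∑ k ∈ Ico n 0, f k, by simp, fun n => ?_⟩
  rcases le_or_gt 0 n with h | h
  · simp only [Ico_eq_empty_of_le h, Ico_eq_empty_of_le (show 0 ≤ n + 1 by omega)]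
    rw [← insert_Ico_right_eq_Ico_add_one h, sum_insert (by simp)]; ring
  · simp only [Ico_eq_empty_of_le h.le, Ico_eq_empty_of_le (show n + 1 ≤ 0 by omega)]
    rw [← insert_Ico_add_one_left_eq_Ico h, sum_insert (by simp)]; ring

lemma poin (p : ℕ) (u v : ℤ → ℤ → ZMod p)
    (h : ∀ i j, u i j + v (i + 1) j = u i (j + 1) + v i j) :
    ∃ t : ℤ → ℤ → ZMod p, ∀ i j, t (i + 1) j = t i j + u i j ∧ t i (j + 1) = t i j + v i j := by
  choose I I0 I1 using anti p
  refine ⟨fun i j => I (u · 0) i + I (v i) j, fun i j => ⟨?_, by simp [I1, add_assoc]⟩⟩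
  induction j with
  | zero => simp [I0, I1]
  | succ j ih => simp only [I1] at ih ⊢; linear_combination ih + h i j
  | pred j ih =>
    have a := I1 (v i) (-j - 1)
    have b := I1 (v (i + 1)) (-j - 1)
    have c := h i (-j - 1)
    simp only [sub_add_cancel] at a b c
    linear_combination ih - c + a - b

/-- Criterion: `a`, `b` commute and generate a free abelian group of rank two, and in every finite
quotient some power of `a` and some power of `b`, with exponents prime to `p`, are trivial. -/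
theorem criterion {G : Type u} [Group G] (p : ℕ) [Fact p.Prime] (a b : G) (hab : Commute a b)
    (fr : ∀ i j : ℤ, a ^ i * b ^ j = 1 → i = 0 ∧ j = 0)
    (hfin : ∀ N : Subgroup G, N.Normal → N.FiniteIndex →
      ∃ m n : ℕ, ¬ p ∣ m ∧ ¬ p ∣ n ∧ a ^ m ∈ N ∧ b ^ n ∈ N) :
    HasAperiodic G p := by
  classical
  have cm : ∀ i j : ℤ, b ^ j * a ^ i = a ^ i * b ^ j := fun i j => (hab.zpow_zpow i j).eq.symm
  have mu : ∀ i j k l : ℤ, a ^ i * b ^ j * (a ^ k * b ^ l) = a ^ (i + k) * b ^ (j + l) :=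
    fun i j k l => by rw [mul_assoc, ← mul_assoc (b ^ j), cm, zpow_add, zpow_add]; group
  let s : Setoid G := ⟨fun g h => ∃ i j : ℤ, g = a ^ i * b ^ j * h, fun g => ⟨0, 0, by simp⟩,
    fun ⟨i, j, e⟩ => ⟨-i, -j, by rw [e, ← mul_assoc, mu]; simp⟩,
    fun ⟨i, j, e⟩ ⟨k, l, f⟩ => ⟨i + k, j + l, by rw [e, f, ← mul_assoc, mu]⟩⟩
  let r : G → G := fun g => (Quotient.mk s g).out
  choose I J e using fun g => (s.symm (Quotient.mk_out (s := s) g) : ∃ i j : ℤ, g = a ^ i * b ^ j * r g)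
  have k : ∀ (i j : ℤ) (g : G), r (a ^ i * b ^ j * g) = r g ∧ I (a ^ i * b ^ j * g) = i + I g ∧
      J (a ^ i * b ^ j * g) = j + J g := fun i j g => by
    have r1 : r (a ^ i * b ^ j * g) = r g := congrArg Quotient.out (Quotient.sound (s := s) ⟨i, j, rfl⟩)
    have e1 := e (a ^ i * b ^ j * g)
    rw [r1] at e1
    nth_rewrite 1 [e g] at e1
    rw [← mul_assoc, mu, mul_left_inj] at e1
    have := fr (i + I g + -I (a ^ i * b ^ j * g)) (j + J g + -J (a ^ i * b ^ j * g)) (by
      rw [← mu, e1, mu]; simp)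
    exact ⟨r1, by omega, by omega⟩
  have ka := k 1 0
  have kb := k 0 1
  simp only [zpow_one, zpow_zero, mul_one, one_mul, zero_add] at ka kb
  refine ⟨{x | ∀ g, (x g).1 + (x (a * g)).2 = (x (b * g)).1 + (x g).2 + 1},
    ⟨{1, a, b}, {p | (p ⟨1, by simp⟩).1 + (p ⟨a, by simp⟩).2 =
      (p ⟨b, by simp⟩).1 + (p ⟨1, by simp⟩).2 + 1}, by simp⟩,
    ⟨image₂ (fun c d => c⁻¹ * d) {1, a, b} {1, a, b}, fun O P h x hx y hy => ?_⟩,
    ⟨fun g => (0, I g), fun g => by simp [ka, add_comm]⟩, fun y hy hf => ?_⟩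
  · choose T hT using fun q : G => poin p
      (fun i j => (x (a ^ i * b ^ j * q)).1 - (y (a ^ i * b ^ j * q)).1)
      (fun i j => (x (a ^ i * b ^ j * q)).2 - (y (a ^ i * b ^ j * q)).2) fun i j => by
        have c := hx (a ^ i * b ^ j * q)
        have d := hy (a ^ i * b ^ j * q)
        have e1 : a * (a ^ i * b ^ j * q) = a ^ (i + 1) * b ^ j * q := by group
        have e2 : b * (a ^ i * b ^ j * q) = a ^ i * b ^ (j + 1) * q := by
          simpa [← mul_assoc, add_comm] using congrArg (· * q) (mu 0 1 i j)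
        rw [e1, e2] at c d
        linear_combination c - d
    let θ := fun g => if ∃ c ∈ ({1, a, b} : Finset G), ∃ w ∈ O, g = c * w then
      T (r g) (I g) (J g) else 0
    refine ⟨fun g => y g + (θ (a * g) - θ g, θ (b * g) - θ g), fun g => ?_, fun w hw => ?_,
      fun w hw => ?_⟩
    · have := hy g
      simp only [Prod.fst_add, Prod.snd_add, ← mul_assoc, hab.eq]
      linear_combination this
    · have c := hT (r w) (I w) (J w)
      rw [← e] at c
      simp only [θ, if_pos (⟨1, by simp, w, hw, by simp⟩ : ∃ c ∈ ({1, a, b} : Finset G), ∃ v ∈ O,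
        w = c * v), if_pos (⟨a, by simp, w, hw, rfl⟩ : ∃ c ∈ ({1, a, b} : Finset G), ∃ v ∈ O,
        a * w = c * v), if_pos (⟨b, by simp, w, hw, rfl⟩ : ∃ c ∈ ({1, a, b} : Finset G), ∃ v ∈ O,
        b * w = c * v), ka, kb, add_comm (1 : ℤ), c]
      ext <;> simp
    · have : ∀ c ∈ ({1, a, b} : Finset G), θ (c * w) = 0 := fun c hc => if_neg fun ⟨d, hd, v, hv, f⟩ =>
        h _ (mem_image₂_of_mem hc hd) v hv (by rwa [mul_assoc, ← f, inv_mul_cancel_left])
      have o := this 1 (by simp)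
      rw [one_mul] at o
      simp [o, this a, this b]
  let _ : MulAction G (G → ZMod p × ZMod p) :=
    { smul := fun g y h => y (h * g)
      one_smul := fun y => funext fun h => congrArg y (mul_one h)
      mul_smul := fun g h y => funext fun k => congrArg y (mul_assoc _ _ _).symm }
  have : Finite (MulAction.orbit G y) := hf
  let ρ := MulAction.toPermHom G (MulAction.orbit G y)
  have od : ∀ c : G, ∀ m : ℕ, c ^ m ∈ ρ.ker → ∀ g, y (c ^ m * g) = y g := fun c m hc g => by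
    have h1 : ρ (c ^ m) = 1 := hc
    have := congrArg (fun σ : Equiv.Perm _ => (σ ⟨_, MulAction.mem_orbit y g⟩).1 1) h1
    change y (1 * _ * g) = y (1 * g) at this
    simpa using this
  obtain ⟨m, n, m1, n1, ma, nb⟩ := hfin ρ.ker inferInstance inferInstance
  have m2 := od a m ma
  have n2 := od b n nb
  have c : ∑ i ∈ range m, ∑ j ∈ range n, (((y (a ^ (i + 1) * b ^ j)).2 - (y (a ^ i * b ^ j)).2) -
      ((y (b ^ (j + 1) * a ^ i)).1 - (y (b ^ j * a ^ i)).1)) = ∑ i ∈ range m, ∑ j ∈ range n, 1 :=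
    sum_congr rfl fun i _ => sum_congr rfl fun j _ => by
      have := hy (a ^ i * b ^ j)
      rw [pow_succ', pow_succ', mul_assoc, mul_assoc, ← (hab.pow_pow i j).eq]
      linear_combination this
  rw [sum_congr rfl fun i _ => (sum_sub_distrib _ _).trans (congrArg _
    (sum_range_sub (fun j => (y (b ^ j * a ^ i)).1) n)), sum_sub_distrib, sum_comm,
    sum_congr rfl fun j _ => sum_range_sub (fun i => (y (a ^ i * b ^ j)).2) m] at c
  simp only [m2, n2] at c
  simp at c
  rcases c with c | c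
  · exact m1 ((ZMod.natCast_eq_zero_iff _ _).1 c)
  · exact n1 ((ZMod.natCast_eq_zero_iff _ _).1 c)

/-- Baumslag–Solitar type relations force the hypothesis of the criterion. -/
theorem ofConj {G : Type u} [Group G] (p : ℕ) [Fact p.Prime] (q : ℕ) (hpq : p ∣ q) (a b t : G)
    (hab : Commute a b) (fr : ∀ i j : ℤ, a ^ i * b ^ j = 1 → i = 0 ∧ j = 0)
    (ha : t * a = a ^ q * t) (hb : t * b = b ^ q * t) : HasAperiodic G p := by
  refine criterion p a b hab fr fun N _ _ => ?_
  have key : ∀ c : G, t * c = c ^ q * t → ∃ m : ℕ, ¬ p ∣ m ∧ c ^ m ∈ N := fun c hc => by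
    let π := QuotientGroup.mk' N
    refine ⟨orderOf (π c), ?_, ?_⟩
    · have o : orderOf (π c) = orderOf (π c ^ q) := (show SemiconjBy (π t) _ _ by
        rw [SemiconjBy, ← map_pow, ← map_mul, hc, map_mul]).orderOf_eq _
      rw [orderOf_pow, eq_comm, Nat.div_eq_self] at o
      have o2 := o.resolve_left (orderOf_pos _).ne'
      intro hp
      have := Nat.dvd_gcd hp hpq
      rw [o2] at this
      exact (Fact.out : p.Prime).one_lt.ne' (Nat.dvd_one.1 this)
    · rw [← QuotientGroup.eq_one_iff]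
      exact (map_pow π c _).trans (pow_orderOf_eq_one (π c))
  obtain ⟨m, m1, m2⟩ := key a ha
  obtain ⟨n, n1, n2⟩ := key b hb
  exact ⟨m, n, m1, n1, m2, n2⟩

section SL

variable {ι : Type} [Fintype ι] [DecidableEq ι] {R : Type} [CommRing R]

/-- Elementary matrices as a homomorphism. -/
def T {i k : ι} (h : i ≠ k) : Multiplicative R →* Matrix.SpecialLinearGroup ι R where
  toFun x := ⟨Matrix.transvection i k x.toAdd, Matrix.det_transvection_of_ne i k h _⟩
  map_one' := Subtype.ext (Matrix.transvection_zero i k)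
  map_mul' x y := Subtype.ext (Matrix.transvection_mul_transvection_same i k h _ _).symm

theorem T_coe {i k : ι} (h : i ≠ k) (x : Multiplicative R) :
    ((T h x : Matrix.SpecialLinearGroup ι R) : Matrix ι ι R) =
      1 + Matrix.single i k x.toAdd := rfl

theorem T_comm {i j k : ι} (hi : i ≠ k) (hj : j ≠ k) (x y : Multiplicative R) :
    Commute (T hi x) (T hj y) := by
  show T hi x * T hj y = T hj y * T hi x
  apply Subtype.ext
  rw [Matrix.SpecialLinearGroup.coe_mul, Matrix.SpecialLinearGroup.coe_mul, T_coe, T_coe]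
  simp only [mul_add, add_mul, one_mul, mul_one]
  rw [Matrix.single_mul_single_of_ne (h := hj.symm), Matrix.single_mul_single_of_ne (h := hi.symm)]
  abel

/-- The diagonal matrix with entries `v` in two places, `v⁻²` in a third and `1` elsewhere. -/
def dgu (i j k : ι) (v : Rˣ) : ι → Rˣ :=
  Pi.mulSingle i v * Pi.mulSingle j v * Pi.mulSingle k (v⁻¹ ^ 2)

theorem dgu_prod (i j k : ι) (v : Rˣ) : ∏ l, dgu i j k v l = 1 := by
  have h : ∀ (i : ι) (w : Rˣ), ∏ l, (Pi.mulSingle i w : ι → Rˣ) l = w := fun i w => by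
    rw [Finset.prod_eq_single i]
    · simp
    · intro b _ hb
      simp [Pi.mulSingle_eq_of_ne hb]
    · simp
  simp only [dgu, Pi.mul_apply]
  rw [Finset.prod_mul_distrib, Finset.prod_mul_distrib, h, h, h]
  group

theorem dgu_i {i j k : ι} (hij : i ≠ j) (hik : i ≠ k) (v : Rˣ) : dgu i j k v i = v := by
  simp [dgu, Pi.mulSingle_eq_of_ne hij, Pi.mulSingle_eq_of_ne hik]

theorem dgu_j {i j k : ι} (hij : i ≠ j) (hjk : j ≠ k) (v : Rˣ) : dgu i j k v j = v := by
  simp [dgu, Pi.mulSingle_eq_of_ne hij.symm, Pi.mulSingle_eq_of_ne hjk]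

theorem dgu_k {i j k : ι} (hik : i ≠ k) (hjk : j ≠ k) (v : Rˣ) :
    dgu i j k v k = v⁻¹ ^ 2 := by
  simp [dgu, Pi.mulSingle_eq_of_ne hik.symm, Pi.mulSingle_eq_of_ne hjk.symm]

/-- The diagonal element. -/
def D (i j k : ι) (v : Rˣ) : Matrix.SpecialLinearGroup ι R :=
  ⟨Matrix.diagonal fun l => (dgu i j k v l : R), by
    rw [Matrix.det_diagonal, ← Units.coe_prod, dgu_prod, Units.val_one]⟩

theorem D_coe (i j k : ι) (v : Rˣ) : ((D i j k v : Matrix.SpecialLinearGroup ι R) :
    Matrix ι ι R) = Matrix.diagonal fun l => (dgu i j k v l : R) := rfl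

theorem D_conj {i j k l : ι} (h : l ≠ k) (v : Rˣ) (hl : dgu i j k v l = v)
    (hk : dgu i j k v k = v⁻¹ ^ 2) (x : R) :
    D i j k v * T h (Multiplicative.ofAdd x) = T h (Multiplicative.ofAdd ((v : R) ^ 3 * x)) *
      D i j k v := by
  apply Subtype.ext
  rw [Matrix.SpecialLinearGroup.coe_mul, Matrix.SpecialLinearGroup.coe_mul, T_coe, T_coe, D_coe]
  rw [mul_add, add_mul, mul_one, one_mul]
  congr 1
  ext r c
  rw [Matrix.diagonal_mul, Matrix.mul_diagonal, Matrix.single_apply, Matrix.single_apply]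
  simp only [toAdd_ofAdd]
  split_ifs with hrc
  · obtain ⟨rfl, rfl⟩ := hrc
    rw [hl, hk]
    have : (v : R) ^ 3 * x * ((v⁻¹ ^ 2 : Rˣ) : R) = ((v ^ 3 * v⁻¹ ^ 2 : Rˣ) : R) * x := by
      push_cast; ring
    rw [this, show (v ^ 3 * v⁻¹ ^ 2 : Rˣ) = v by group]
  · simp

end SL

/-- The ring `ℤ[1/q]`. -/
abbrev Zinv (q : ℕ) : Type := Localization.Away (q : ℤ)

theorem exists_hom (q : ℕ) (hq : 2 ≤ q) (x : Zinv q) (hx : x ≠ 0) :
    ∃ p : ℕ, p.Prime ∧ ∃ φ : Zinv q →+* ZMod p, φ x ≠ 0 := by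
  obtain ⟨n, z, hz⟩ := IsLocalization.Away.surj (q : ℤ) x
  have hz0 : z ≠ 0 := by
    rintro rfl
    rw [map_zero] at hz
    have hu : IsUnit (algebraMap ℤ (Zinv q) (q : ℤ) ^ n) :=
      (IsLocalization.Away.algebraMap_isUnit (q : ℤ)).pow n
    exact hx (hu.mul_left_eq_zero.1 hz)
  obtain ⟨p, hp, hpp⟩ := Nat.exists_infinite_primes (z.natAbs + q + 1)
  have : Fact p.Prime := ⟨hpp⟩
  have hqp : IsUnit ((Int.castRingHom (ZMod p)) (q : ℤ)) := by
    rw [isUnit_iff_ne_zero]
    simp only [Int.coe_castRingHom, Int.cast_natCast, ne_eq, ZMod.natCast_eq_zero_iff]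
    intro h
    have := Nat.le_of_dvd (by omega) h
    omega
  refine ⟨p, hpp, IsLocalization.Away.lift (q : ℤ) hqp, fun h0 => ?_⟩
  have h1 := congrArg (IsLocalization.Away.lift (q : ℤ) hqp) hz
  rw [map_mul, h0, zero_mul, IsLocalization.Away.lift_eq] at h1
  have h2 : ((z : ℤ) : ZMod p) = 0 := h1.symm
  rw [ZMod.intCast_zmod_eq_zero_iff_dvd] at h2
  have h3 := Int.natAbs_dvd_natAbs.2 h2
  have h4 := Nat.le_of_dvd (Int.natAbs_pos.2 hz0) h3
  simp at h4
  omega

theorem sl_rf (q : ℕ) (hq : 2 ≤ q) (ι : Type) [Fintype ι] [DecidableEq ι] :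
    ResiduallyFinite (Matrix.SpecialLinearGroup ι (Zinv q)) := by
  intro g hg
  have : ∃ i j, (g : Matrix ι ι (Zinv q)) i j - (1 : Matrix ι ι (Zinv q)) i j ≠ 0 := by
    by_contra hcon
    push Not at hcon
    exact hg (Subtype.ext (by ext i j; simpa [sub_eq_zero] using hcon i j))
  obtain ⟨i, j, hij⟩ := this
  obtain ⟨p, hp, φ, hφ⟩ := exists_hom q hq _ hij
  have : Fact p.Prime := ⟨hp⟩
  refine ⟨(Matrix.SpecialLinearGroup.map (n := ι) φ).ker, inferInstance, fun hk => hφ ?_⟩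
  have h1 := congrArg (fun M : Matrix.SpecialLinearGroup ι (ZMod p) =>
    (M : Matrix ι ι (ZMod p)) i j) (MonoidHom.mem_ker.1 hk)
  simp only [Matrix.SpecialLinearGroup.map_apply_coe, RingHom.mapMatrix_apply, Matrix.map_apply,
    Matrix.SpecialLinearGroup.coe_one] at h1
  rw [map_sub, h1, Matrix.one_apply, Matrix.one_apply]
  split_ifs <;> simp

theorem sl_aperiodic (q : ℕ) (hq : 2 ≤ q) (n : ℕ) (hn : 3 ≤ n) (p : ℕ) (hp : p.Prime)
    (hpq : p ∣ q) : HasAperiodic (Matrix.SpecialLinearGroup (Fin n) (Zinv q)) p := by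
  have : Fact p.Prime := ⟨hp⟩
  have hqu : IsUnit (algebraMap ℤ (Zinv q) (q : ℤ)) :=
    IsLocalization.Away.algebraMap_isUnit (q : ℤ)
  obtain ⟨v, hv⟩ := hqu
  have hinj : Function.Injective (algebraMap ℤ (Zinv q)) :=
    IsLocalization.injective (Zinv q) (M := Submonoid.powers (q : ℤ))
      (powers_le_nonZeroDivisors_of_noZeroDivisors (by positivity))
  let i : Fin n := ⟨0, by omega⟩
  let j : Fin n := ⟨1, by omega⟩
  let k : Fin n := ⟨2, by omega⟩
  have hij : i ≠ j := by simp [i, j]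
  have hik : i ≠ k := by simp [i, k]
  have hjk : j ≠ k := by simp [j, k]
  have hpow : ∀ (l : Fin n) (h : l ≠ k), T h (Multiplicative.ofAdd ((v : Zinv q) ^ 3 * 1)) =
      T h (Multiplicative.ofAdd (1 : Zinv q)) ^ (q ^ 3) := by
    intro l h
    rw [← map_pow, ← ofAdd_nsmul, hv]
    congr 2
    simp
  refine ofConj p (q ^ 3) (dvd_pow hpq (by norm_num)) (T hik (Multiplicative.ofAdd (1 : Zinv q)))
    (T hjk (Multiplicative.ofAdd (1 : Zinv q))) (D i j k v) (T_comm _ _ _ _) (fun x y hxy => ?_)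
    ?_ ?_
  · have e := congrArg (fun M : Matrix.SpecialLinearGroup (Fin n) (Zinv q) =>
      (M : Matrix (Fin n) (Fin n) (Zinv q))) hxy
    simp only [← map_zpow, ← ofAdd_zsmul, T_coe,
      Matrix.SpecialLinearGroup.coe_mul, toAdd_ofAdd, Matrix.SpecialLinearGroup.coe_one] at e
    simp only [mul_add, add_mul, mul_one, one_mul] at e
    rw [Matrix.single_mul_single_of_ne (h := hjk.symm)] at e
    have e1 := congrFun (congrFun e i) k
    have e2 := congrFun (congrFun e j) k
    simp [hik, hjk, hij, hij.symm] at e1 e2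
    have f1 : algebraMap ℤ (Zinv q) x = algebraMap ℤ (Zinv q) 0 := by simpa using e1
    have f2 : algebraMap ℤ (Zinv q) y = algebraMap ℤ (Zinv q) 0 := by simpa using e2
    exact ⟨hinj f1, hinj f2⟩
  · rw [← hpow]; exact D_conj hik v (dgu_i hij hik v) (dgu_k hik hjk v) 1
  · rw [← hpow]; exact D_conj hjk v (dgu_j hij hjk v) (dgu_k hik hjk v) 1

/-- (1) A criterion valid over every group. (2) It applies to every group that contains commuting
`a`, `b`, generating a free abelian group of rank two, and `t` with `t a t⁻¹ = a ^ q`,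
`t b t⁻¹ = b ^ q`, and every prime `p` dividing `q`. (3) For all `n ≥ 3` and `q ≥ 2` the group
`SL_n(ℤ[1/q])` is residually finite and carries, for every prime `p` dividing `q`, a nonempty
strongly irreducible subshift of finite type without any periodic configuration. -/
theorem result :
    (∀ (G : Type u) [Group G] (p : ℕ) (a b : G), p.Prime → Commute a b →
      (∀ i j : ℤ, a ^ i * b ^ j = 1 → i = 0 ∧ j = 0) →
      (∀ N : Subgroup G, N.Normal → N.FiniteIndex →
        ∃ m n : ℕ, ¬ p ∣ m ∧ ¬ p ∣ n ∧ a ^ m ∈ N ∧ b ^ n ∈ N) → HasAperiodic G p) ∧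
    (∀ (G : Type u) [Group G] (p q : ℕ) (a b t : G), p.Prime → p ∣ q → Commute a b →
      (∀ i j : ℤ, a ^ i * b ^ j = 1 → i = 0 ∧ j = 0) →
      t * a * t⁻¹ = a ^ q → t * b * t⁻¹ = b ^ q → HasAperiodic G p) ∧
    (∀ n q : ℕ, 3 ≤ n → 2 ≤ q →
      ResiduallyFinite (Matrix.SpecialLinearGroup (Fin n) (Zinv q)) ∧
      ∀ p : ℕ, p.Prime → p ∣ q →
        HasAperiodic (Matrix.SpecialLinearGroup (Fin n) (Zinv q)) p) := by
  refine ⟨?_, ?_, ?_⟩
  · intro G _ p a b hp hab fr h
    have : Fact p.Prime := ⟨hp⟩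
    exact criterion p a b hab fr h
  · intro G _ p q a b t hp hpq hab fr ha hb
    have : Fact p.Prime := ⟨hp⟩
    exact ofConj p q hpq a b t hab fr (by rw [← ha]; group) (by rw [← hb]; group)
  · intro n q hn hq
    exact ⟨sl_rf q hq _, fun p hp hpq => sl_aperiodic q hq n hn p hp hpq⟩

end Pool.Agent.Results.MP_39f9da_an.SpecialLinear
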